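import Pool.Agent.H24.Lib.R_seed8.H617R3.AP.Main

/-!
# The three parts of the theorem
-/

set_option autoImplicit false

open Finset

namespace Pool.Agent.H617R3.AP

open Classical in
theorem part_one {k : ℕ} (hk : 3 ≤ k) (K h : ℕ) {η : ℝ} (hη : 0 < η) :
    (((range K).filter (fun i => (r k (2 ^ (i + h)) : ℝ) / 2 ^ (i + h) <
      (1 - η) * ((r k (2 ^ i) : ℝ) / 2 ^ i))).card : ℝ) ≤ 4 * h * √((K : ℝ) + h) / η := by
  refine le_trans (Nat.cast_le.2 (card_le_card ?_)) (card_bad_le hk K h hη)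
  intro i hi
  rw [mem_filter] at hi ⊢
  refine ⟨hi.1, ?_⟩
  have h1 : d k (2 ^ (i + h)) < (1 - η) * d k (2 ^ i) := by
    have := hi.2
    unfold d; push_cast; exact this
  have hp1 := d_pos hk (N := 2 ^ (i + h)) Nat.one_le_two_pow
  have hp2 := d_pos hk (N := 2 ^ i) Nat.one_le_two_pow
  have h2 : 0 < 1 - η := by
    by_contra h3
    push Not at h3
    nlinarith
  have h3 := Real.log_lt_log hp1 h1
  rw [Real.log_mul h2.ne' hp2.ne'] at h3
  have h4 := Real.log_le_sub_one_of_pos h2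
  unfold f
  linarith

theorem ratio_aux {ε R A N : ℝ} (h0 : 0 < ε) (h1 : ε ≤ 1) (hR : 0 ≤ R) (hN : 0 < N)
    (hA : (1 - ε / 8) * R ≤ A) {τ D : ℝ} (hτ : τ ≤ ε / 8) (hD : D ≤ (1 + τ) * (R / N)) :
    D ≤ (1 + 3 * ε / 8) * (A / N) := by
  refine hD.trans ?_
  have e1 : (1 + τ) * (R / N) = ((1 + τ) * R) / N := by ring
  have e2 : (1 + 3 * ε / 8) * (A / N) = ((1 + 3 * ε / 8) * A) / N := by ring
  rw [e1, e2]
  apply div_le_div_of_nonneg_right _ hN.le
  have h2 : (1 + τ) * R ≤ (1 + 3 * ε / 8) * ((1 - ε / 8) * R) := by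
    have : (1 + τ) ≤ (1 + 3 * ε / 8) * (1 - ε / 8) := by nlinarith
    nlinarith
  nlinarith

/-- arithmetic of the lower bound -/
theorem low_arith {ε N l q L A H D : ℝ} (h0 : 0 < ε) (h1 : ε ≤ 1) (hN : 0 < N) (hA : 0 ≤ A)
    (hL : 0 ≤ L) (hq : 0 ≤ q) (hl : 0 ≤ l) (hlN : l ≤ N) (hLs : 40 * L ≤ ε ^ 2 * N)
    (hqε : q * ε ≤ 2) (hD : D ≤ (1 + 3 * ε / 8) * (A / N))
    (h : A ≤ H + (N - l + 5 * q * L) * D) : -(ε * A) ≤ H - A * (l / N) := by
  have h5 : 0 ≤ 5 * q * L := by positivity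
  have h7 : (N - l + 5 * q * L) * D ≤ (N - l + 5 * q * L) * ((1 + 3 * ε / 8) * (A / N)) :=
    mul_le_mul_of_nonneg_left hD (by linarith)
  have h8 : 5 * q * L ≤ ε * N / 4 := by
    have h9 : q * (40 * L) ≤ q * (ε ^ 2 * N) := mul_le_mul_of_nonneg_left hLs hq
    have h10 : q * (ε ^ 2 * N) = (q * ε) * (ε * N) := by ring
    have h11 : q * ε * (ε * N) ≤ 2 * (ε * N) := mul_le_mul_of_nonneg_right hqε (by positivity)
    linarith
  have h12 : (N - l + 5 * q * L) * (1 + 3 * ε / 8) ≤ N - l + ε * N := by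
    have h13 : (N - l) * (3 * ε / 8) ≤ N * (3 * ε / 8) :=
      mul_le_mul_of_nonneg_right (by linarith) (by positivity)
    have h14 : 5 * q * L * (1 + 3 * ε / 8) ≤ ε * N / 4 * 2 :=
      mul_le_mul h8 (by linarith) (by positivity) (by positivity)
    linarith
  have h14 : (N - l + 5 * q * L) * ((1 + 3 * ε / 8) * (A / N)) ≤ (N - l + ε * N) * (A / N) := by
    rw [← mul_assoc]
    exact mul_le_mul_of_nonneg_right h12 (by positivity)
  have e : (N - l + ε * N) * (A / N) = A - A * (l / N) + ε * A := by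
    field_simp
  rw [e] at h14
  linarith

/-- arithmetic of the upper bound -/
theorem upp_arith {ε N l L A H D : ℝ} (h0 : 0 < ε) (h1 : ε ≤ 1) (hN : 0 < N) (hA : 0 ≤ A)
    (hL : 0 ≤ L) (hl : 0 ≤ l) (hlN : l ≤ N) (hLs : 40 * L ≤ ε ^ 2 * N)
    (hD : D ≤ (1 + 3 * ε / 8) * (A / N)) (h : H ≤ (l + L) * D) :
    H - A * (l / N) ≤ ε * A := by
  have h8 : (l + L) * D ≤ (l + L) * ((1 + 3 * ε / 8) * (A / N)) :=
    mul_le_mul_of_nonneg_left hD (by positivity)
  have hε2 : ε ^ 2 * N ≤ ε * N := mul_le_mul_of_nonneg_right (by nlinarith) hN.le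
  have h9 : (l + L) * (1 + 3 * ε / 8) ≤ l + ε * N := by
    have h2 : l * (3 * ε / 8) ≤ N * (3 * ε / 8) := mul_le_mul_of_nonneg_right hlN (by positivity)
    have h3 : L * (1 + 3 * ε / 8) ≤ L * 2 := mul_le_mul_of_nonneg_left (by linarith) hL
    linarith
  have h10 : (l + L) * ((1 + 3 * ε / 8) * (A / N)) ≤ (l + ε * N) * (A / N) := by
    rw [← mul_assoc]
    exact mul_le_mul_of_nonneg_right h9 (by positivity)
  have e : (l + ε * N) * (A / N) = A * (l / N) + ε * A := by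
    field_simp
  rw [e] at h10
  linarith

/-- equidistribution from the comparison with a shorter length `L` -/
theorem equi {k : ℕ} (hk : 3 ≤ k) {ε : ℝ} (h0 : 0 < ε) (h1 : ε ≤ 1) {N L : ℕ} (hN : 1 ≤ N)
    (hL1 : 1 ≤ L) (hLs : 40 * (L : ℝ) ≤ ε ^ 2 * N) {A : Finset ℕ} (hA : A ⊆ Icc 1 N)
    (hAF : APFree k A) (hDA : d k L ≤ (1 + 3 * ε / 8) * ((A.card : ℝ) / N))
    {a q l : ℕ} (ha : 1 ≤ a) (hq : 1 ≤ q) (hal : a + q * l ≤ N + q) :
    |(hits A a q l : ℝ) - A.card * ((l : ℝ) / N)| ≤ ε * A.card := by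
  have hN0 : (0 : ℝ) < N := by exact_mod_cast hN
  have hL0 : (1 : ℝ) ≤ L := by exact_mod_cast hL1
  have hA0 : (0 : ℝ) ≤ A.card := Nat.cast_nonneg _
  rcases Nat.eq_zero_or_pos l with hl | hl
  · subst hl
    simp only [hits, range_zero, filter_empty, card_empty, Nat.cast_zero, zero_div, mul_zero,
      sub_zero, abs_zero]
    positivity
  have hlN' : a + q * (l - 1) ≤ N := by
    obtain ⟨t, rfl⟩ : ∃ t, l = t + 1 := ⟨l - 1, by omega⟩
    have : q * (t + 1) = q * t + q := by ring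
    simp only [Nat.add_sub_cancel]
    omega
  have hlN : (l : ℝ) ≤ N := by
    have h5 : 1 * (l - 1) ≤ q * (l - 1) := Nat.mul_le_mul_right _ hq
    have : l ≤ N := by omega
    exact_mod_cast this
  have hl0 : (0 : ℝ) ≤ l := Nat.cast_nonneg _
  rw [abs_le]
  constructor
  · by_cases hqε : (q : ℝ) * ε ≤ 2
    · exact low_arith h0 h1 hN0 hA0 (by linarith) (Nat.cast_nonneg q) hl0 hlN hLs hqε hDA
        (card_le_hits (k := k) (by omega) hAF hA hq ha hl hlN' hL1)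
    · push Not at hqε
      have h16 : (q : ℝ) * ((l : ℝ) - 1) ≤ N := by
        have h17 : ((q * (l - 1) : ℕ) : ℝ) ≤ N := by
          exact_mod_cast (show q * (l - 1) ≤ N by omega)
        rw [Nat.cast_mul, Nat.cast_sub hl] at h17
        push_cast at h17
        exact h17
      have hl1 : (1 : ℝ) ≤ l := by exact_mod_cast hl
      have h18 : 2 * ((l : ℝ) - 1) ≤ ε * N := by
        have h21 : 2 * ((l : ℝ) - 1) ≤ q * ε * ((l : ℝ) - 1) :=
          mul_le_mul_of_nonneg_right hqε.le (by linarith)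
        have h22 : ε * ((q : ℝ) * ((l : ℝ) - 1)) ≤ ε * N := mul_le_mul_of_nonneg_left h16 h0.le
        linarith
      have h15 : (l : ℝ) ≤ ε * N := by
        have hε2 : ε ^ 2 * N ≤ ε * N := mul_le_mul_of_nonneg_right (by nlinarith) hN0.le
        linarith
      have h19 : (A.card : ℝ) * ((l : ℝ) / N) ≤ A.card * ε := by
        apply mul_le_mul_of_nonneg_left _ hA0
        rw [div_le_iff₀ hN0]; exact h15
      have h20 : (0 : ℝ) ≤ hits A a q l := Nat.cast_nonneg _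
      linarith
  · have h6 : (hits A a q l : ℝ) ≤ r k l := by
      exact_mod_cast hits_le (by omega) hAF hq a l
    have h7 := r_le (k := k) (by omega) l (N := L) hL1
    exact upp_arith h0 h1 hN0 hA0 (by linarith) hl0 hlN hLs hDA (h6.trans h7)

open Classical in
theorem part_two {k : ℕ} (hk : 3 ≤ k) {ε Λ : ℝ} (h0 : 0 < ε) (h1 : ε ≤ 1) (hΛ : 1 ≤ Λ) :
    ∃ (C : ℝ) (E : Set ℕ),
      (∀ x : ℕ, 2 ≤ x → ∑ N ∈ (Icc 1 x).filter (fun N => N ∈ E), (1 : ℝ) / N ≤
        C * √(Real.log x)) ∧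
      ∀ N : ℕ, 1 ≤ N → N ∉ E →
        (∀ M : ℕ, (N : ℝ) ≤ Λ * M → (M : ℝ) ≤ Λ * N →
          |(r k M : ℝ) / r k N - (M : ℝ) / N| ≤ ε) ∧
        ∀ A : Finset ℕ, A ⊆ Icc 1 N → APFree k A → (1 - ε / 8) * r k N ≤ A.card →
          ∀ a q l : ℕ, 1 ≤ a → 1 ≤ q → a + q * l ≤ N + q →
            |(hits A a q l : ℝ) - A.card * ((l : ℝ) / N)| ≤ ε * A.card := by
  set τ : ℝ := ε / (8 * Λ) with hτ
  have hΛ0 : 0 < Λ := by linarith
  have hτ0 : 0 < τ := by positivity
  have hτε : τ ≤ ε / 8 := by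
    rw [hτ]
    apply div_le_div_of_nonneg_left h0.le (by norm_num) (by linarith)
  have hτ1 : τ ≤ 1 := by linarith
  obtain ⟨m, hm⟩ := pow_unbounded_of_one_lt (max (2 * (8 / τ) * Λ) (40 / ε ^ 2))
    (by norm_num : (1 : ℝ) < 2)
  have hm1 : 2 * (8 / τ) * Λ ≤ 2 ^ m := (le_max_left _ _).trans hm.le
  have hm2 : 40 / ε ^ 2 ≤ 2 ^ m := (le_max_right _ _).trans hm.le
  obtain ⟨C, hC⟩ := bad_sqrt hk m (η := τ / 4) (by positivity)
  refine ⟨C, {N | Nat.log 2 N ∈ Bad k m (τ / 4)}, fun x hx => ?_, fun N hN hNE => ?_⟩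
  · exact (sum_blocks _ (Bad k m (τ / 4)) (fun N hN => hN) x).trans (hC x hx)
  have hreg := regular hk hτ0 hτ1 hN hNE hΛ hm1
  have hN0 : (0 : ℝ) < N := by exact_mod_cast hN
  have hNN : (N : ℝ) ≤ Λ * N := by nlinarith
  have hdN := d_pos hk hN
  constructor
  · intro M hM1 hM2
    have hM0 : (0 : ℝ) < M := by
      by_contra h
      push Not at h
      nlinarith
    have hM0' : 1 ≤ M := by exact_mod_cast hM0
    have hdM := d_pos hk hM0'
    have c1 := (hreg.2 N hNN hNN).2 M hM1 hM2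
    have c2 := (hreg.2 M hM1 hM2).2 N hNN hNN
    have e : (r k M : ℝ) / r k N - (M : ℝ) / N = (M : ℝ) / N * (d k M / d k N - 1) := by
      have hr := r_pos hk hN
      unfold d
      field_simp
    rw [e, abs_mul, abs_of_pos (by positivity)]
    have h3 : |d k M / d k N - 1| ≤ τ := by
      rw [abs_le]
      constructor
      · have : 1 - τ ≤ d k M / d k N := by
          rw [le_div_iff₀ hdN]
          nlinarith
        linarith
      · have : d k M / d k N ≤ 1 + τ := by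
          rw [div_le_iff₀ hdN]; exact c1
        linarith
    have h4 : (M : ℝ) / N ≤ Λ := by rw [div_le_iff₀ hN0]; exact hM2
    calc (M : ℝ) / N * |d k M / d k N - 1| ≤ Λ * τ :=
          mul_le_mul h4 h3 (abs_nonneg _) hΛ0.le
      _ = ε / 8 := by rw [hτ]; field_simp
      _ ≤ ε := by linarith
  · intro A hA hAF hAc a q l ha hq hal
    have hL1 : 1 ≤ 2 ^ (Nat.log 2 N - m) := Nat.one_le_two_pow
    have hD := (hreg.2 N hNN hNN).1
    have hDA := ratio_aux h0 h1 (Nat.cast_nonneg _) hN0 hAc hτε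
      (D := d k (2 ^ (Nat.log 2 N - m))) hD
    refine equi hk h0 h1 hN hL1 ?_ hA hAF hDA ha hq hal
    have h3 : (2 : ℝ) ^ (Nat.log 2 N - m) * (40 / ε ^ 2) ≤ N :=
      (mul_le_mul_of_nonneg_left hm2 (by positivity)).trans hreg.1
    have e : (2 : ℝ) ^ (Nat.log 2 N - m) * (40 / ε ^ 2) =
      40 * (2 : ℝ) ^ (Nat.log 2 N - m) / ε ^ 2 := by ring
    rw [e, div_le_iff₀ (by positivity)] at h3
    push_cast
    linarith

end Pool.Agent.H617R3.AP
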